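import Pool.Agent.Lib.MP_305fdd_al.F8.NC.Stm0
import Pool.Agent.Lib.MP_305fdd_al.F8.CG.P_fg

/-!
# MP_305fdd_al, noncongruence subgroups: piece NC N0_fg (two towers)
-/

set_option autoImplicit false

namespace Pool.Agent.F8.NC

open Pool.Agent.F8.BG Pool.Agent.F8.CG

noncomputable section

/-- no homomorphism to `ℤ` has a free kernel which is not finitely generated -/
theorem N0fg_key (hb1 : B_b1) (hlin : B_lin) {ι : Type} [Finite ι] (α : MulAut (FreeGroup ι))
    (Γ₁ Γ₂ : Subgroup (GR α)) (E D : ℕ → Subgroup (GR α)) (hE : Tow Γ₁ E) (hT : Tow Γ₂ D)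
    (H : Subgroup (GR α)) (hH : H ≤ Γ₁) (hfg : H.FG) (q : ℕ) [Fact q.Prime] (C : ℕ)
    (hpow : ∀ j, ∃ n : ℕ, (E j).relIndex H = q ^ n)
    (hC : ∀ j, (D j).index ≤ C * (E j).relIndex H)
    (hb : ∀ j, b1 (H ⊓ E j : Subgroup (GR α)) ≤ b1 (D j))
    (ν : H →* Multiplicative ℤ) (hν : Function.Surjective ν) (hfree : IsFreeGroup ν.ker) :
    Group.FG ν.ker := by
  by_contra hnf
  have : Group.FG H := (Group.fg_iff_subgroup_fg H).2 hfg
  obtain ⟨j, hj⟩ := hb1 ι α Γ₂ D hT (C + 1)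
  have hj := hj j le_rfl
  obtain ⟨n, hn⟩ := hpow j
  have hnorm : ((E j).subgroupOf H).Normal := by
    constructor
    intro x hx g
    rw [Subgroup.mem_subgroupOf] at hx ⊢
    exact hE.nor j g (hH g.2) x hx
  have h1 : q ^ n ≤ b1 ((E j).subgroupOf H) :=
    hlin H ν hν hfree hnf q ((E j).subgroupOf H) n hn
  have h2 : b1 ((E j).subgroupOf H) = b1 (H ⊓ E j : Subgroup (GR α)) := by
    have e : (E j).subgroupOf H = (H ⊓ E j).subgroupOf H := (Subgroup.inf_subgroupOf_left (E j) H).symm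
    rw [e]
    exact fg_b1 (Subgroup.subgroupOfEquivOfLe inf_le_left)
  have h3 := hC j
  rw [hn] at h3
  have h4 := hb j
  have h5 : (D j).index ≤ C * b1 (D j) :=
    h3.trans (Nat.mul_le_mul_left _ (h1.trans (h2.le.trans h4)))
  have h6 : (D j).index ≠ 0 := (hT.fin j).index_ne_zero
  have h7 : (C + 1) * b1 (D j) = C * b1 (D j) + b1 (D j) := by ring
  have h8 : b1 (D j) = 0 := by omega
  rw [h8, mul_zero] at h5
  omega

/-- **[NC 0 fg]** -/
theorem p_N0fg (hb1 : B_b1) (hlin : B_lin) (hfre : B_fre) : N0_fg := by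
  intro ι _ α Γ₁ Γ₂ E D hE hT H hH hfg hna q _ C hpow hC hb
  have hkey := N0fg_key hb1 hlin α Γ₁ Γ₂ E D hE hT H hH hfg q C hpow hC hb
  have hcf : IsFreeGroup (H.comap (iR α)) := inferInstance
  -- the kernel of a homomorphism with the kernel of `nR`
  have hequiv : ∀ ν : H →* Multiplicative ℤ, (∀ x : H, ν x = 1 ↔ nR α x = 1) →
      Nonempty (H.comap (iR α) ≃* ν.ker) := by
    intro ν hν
    let φ : H.comap (iR α) →* ν.ker :=
      { toFun := fun w => ⟨⟨iR α w.1, w.2⟩, (hν _).2 (nR_iR α w.1)⟩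
        map_one' := by
          apply Subtype.ext
          apply Subtype.ext
          exact map_one (iR α)
        map_mul' := fun a b => by
          apply Subtype.ext
          apply Subtype.ext
          exact map_mul (iR α) a.1 b.1 }
    refine ⟨MulEquiv.ofBijective φ ⟨?_, ?_⟩⟩
    · intro a b hab
      apply Subtype.ext
      apply iR_injective α
      exact congrArg (fun z : ν.ker => (z.1.1 : GR α)) hab
    · rintro ⟨⟨x, hx⟩, hxν⟩
      obtain ⟨w, rfl⟩ := GR_ker α x ((hν ⟨x, hx⟩).1 hxν)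
      exact ⟨⟨w, hx⟩, rfl⟩
  have h2 : ∃ x ∈ H, nR α x ≠ 1 := by
    by_contra hno
    have hno : ∀ x ∈ H, nR α x = 1 := by
      intro x hx
      by_contra h
      exact hno ⟨x, hx, h⟩
    obtain ⟨e⟩ := hequiv (1 : H →* Multiplicative ℤ)
      (fun x => ⟨fun _ => hno x.1 x.2, fun _ => rfl⟩)
    have htop : (1 : H →* Multiplicative ℤ).ker = ⊤ := by
      ext x
      simp
    have e2 : H.comap (iR α) ≃* H :=
      e.trans ((MulEquiv.subgroupCongr htop).trans Subgroup.topEquiv)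
    have hHf : IsFreeGroup H := IsFreeGroup.ofMulEquiv e2
    have : Group.FG H := (Group.fg_iff_subgroup_fg H).2 hfg
    obtain ⟨x, hx, y, hy, hxy⟩ := hna
    obtain ⟨ν, hν, hnf⟩ := hfre H hHf ⟨⟨x, hx⟩, ⟨y, hy⟩, fun h => hxy (congrArg Subtype.val h)⟩
    exact hnf (hkey ν hν inferInstance)
  refine ⟨?_, h2⟩
  obtain ⟨x, hx, hx1⟩ := h2
  obtain ⟨ν, hν, hker⟩ := fg_sur ((nR α).comp H.subtype) ⟨x, hx⟩ hx1
  obtain ⟨e⟩ := hequiv ν hker
  have : IsFreeGroup ν.ker := IsFreeGroup.ofMulEquiv e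
  have : Group.FG ν.ker := hkey ν hν inferInstance
  rw [← Group.fg_iff_subgroup_fg]
  exact Group.fg_of_surjective (f := e.symm.toMonoidHom) e.symm.surjective

end

end Pool.Agent.F8.NC
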